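import Mathlib
import Pool.Graph.R_pool_sql_team_seeded_9f66d723.W5h75.ST.Real

/-!
# Clusters of sexy almost primes between consecutive cubes, with prescribed parity

Fix `k ≥ 1` and put `L = 30 (2 k)!`.  For ALL large `n` there are at least `n ^ (2 - ε)` integers `m`
such that the `k` pairs `(m + L i, m + L i + 6)`, `i < k`, lie between `n ^ 3` and `(n + 1) ^ 3`, all
their `2 k` members are products of at most `R` primes larger than `n ^ δ`, all integers strictly
between the two members of a pair are divisible by `2`, `3` or `5` (so no prime lies between them),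
and the number of prime factors of ANY ONE chosen member has a prescribed parity.
-/

set_option autoImplicit false

namespace Pool.Agent.Results.MP_5628fe_nt.ParityOfSexyClusters

/-- `m` is a product of at most `R` primes (with multiplicity), all of them larger than `y` -/
def AlmostPrime (R : ℕ) (y : ℝ) (m : ℕ) : Prop :=
  ArithmeticFunction.cardFactors m ≤ R ∧ ∀ p : ℕ, p.Prime → p ∣ m → y < p

/-- the step between the pairs of a cluster of `k` pairs -/
def step (k : ℕ) : ℕ := 30 * (2 * k).factorial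

/-- the `k` pairs `(m + step k * i, m + step k * i + 6)`, `i < k`, consist of almost primes and no
integer strictly between the members of a pair is coprime to `30` -/
def Cluster (k R : ℕ) (y : ℝ) (m : ℕ) : Prop :=
  ∀ i < k, AlmostPrime R y (m + step k * i) ∧ AlmostPrime R y (m + step k * i + 6) ∧
    ∀ x : ℕ, m + step k * i < x → x < m + step k * i + 6 → ¬ Nat.Coprime x 30

theorem between {m x : ℕ} (h : m % 30 = 1) (h1 : m < x) (h2 : x < m + 6) : ¬ Nat.Coprime x 30 := by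
  have h3 : x = m + 1 ∨ x = m + 2 ∨ x = m + 3 ∨ x = m + 4 ∨ x = m + 5 := by omega
  intro hc
  have c2 : ¬ 2 ∣ x := fun hd => by
    have := Nat.dvd_gcd hd (show 2 ∣ 30 by norm_num)
    rw [Nat.Coprime.gcd_eq_one hc] at this
    omega
  have c3 : ¬ 3 ∣ x := fun hd => by
    have := Nat.dvd_gcd hd (show 3 ∣ 30 by norm_num)
    rw [Nat.Coprime.gcd_eq_one hc] at this
    omega
  have c5 : ¬ 5 ∣ x := fun hd => by
    have := Nat.dvd_gcd hd (show 5 ∣ 30 by norm_num)
    rw [Nat.Coprime.gcd_eq_one hc] at this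
    omega
  omega

/-- the linear forms of the cluster -/
def sh (k : ℕ) (i : Fin k × Fin 2) : ℤ := (step k : ℤ) * (i.1 : ℕ) + 6 * ((i.2 : ℕ) : ℤ)

theorem adm (k : ℕ) (p : ℕ) (hp : p.Prime) :
    ∃ n : ℤ, ∀ i : Fin k × Fin 2, ¬ (p : ℤ) ∣ 1 * (1 + ((30 : ℕ) : ℤ) * n) + sh k i := by
  have hpp : Prime (p : ℤ) := Nat.prime_iff_prime_int.1 hp
  by_cases h30 : p ∣ 30
  · have h5 : p = 2 ∨ p = 3 ∨ p = 5 := by
      have hle : p ≤ 30 := Nat.le_of_dvd (by norm_num) h30
      interval_cases p <;> revert h30 hp <;> norm_num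
    refine ⟨0, fun i hd => ?_⟩
    have hs : (p : ℤ) ∣ (step k : ℤ) * (i.1 : ℕ) := by
      apply Dvd.dvd.mul_right
      unfold step
      push_cast
      exact Dvd.dvd.mul_right (by exact_mod_cast h30) _
    unfold sh at hd
    have h1 : (p : ℤ) ∣ 1 + 6 * ((i.2 : ℕ) : ℤ) := by
      have := dvd_sub hd hs
      have e : (1 * (1 + ((30 : ℕ) : ℤ) * 0) + ((step k : ℤ) * (i.1 : ℕ) + 6 * ((i.2 : ℕ) : ℤ))) -
          (step k : ℤ) * (i.1 : ℕ) = 1 + 6 * ((i.2 : ℕ) : ℤ) := by ring
      rwa [e] at this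
    have hi2 : (i.2 : ℕ) = 0 ∨ (i.2 : ℕ) = 1 := by omega
    rcases hi2 with h | h <;> rw [h] at h1 <;> rcases h5 with rfl | rfl | rfl <;> norm_num at h1
  · -- `p ≥ 7`
    have hco : IsCoprime (30 : ℤ) (p : ℤ) := by
      rw [isCoprime_comm]
      exact (Prime.coprime_iff_not_dvd hpp).2 (by exact_mod_cast h30)
    -- it is enough to find a class `c` such that `c ≠ - sh k i` modulo `p`
    have key : ∃ c : ℤ, ∀ i : Fin k × Fin 2, ¬ (p : ℤ) ∣ c + sh k i := by
      by_cases hk : p ≤ 2 * k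
      · have hpf : (p : ℤ) ∣ (step k : ℤ) := by
          unfold step
          push_cast
          apply Dvd.dvd.mul_left
          exact_mod_cast (hp.dvd_factorial).2 hk
        have h7 : 7 ≤ p := by
          by_contra hlt
          push Not at hlt
          have : p = 2 ∨ p = 3 ∨ p = 4 ∨ p = 5 ∨ p = 6 := by
            have := hp.two_le
            omega
          rcases this with rfl | rfl | rfl | rfl | rfl
          · exact h30 (by norm_num)
          · exact h30 (by norm_num)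
          · exact absurd hp (by norm_num)
          · exact h30 (by norm_num)
          · exact absurd hp (by norm_num)
        by_cases h7' : p = 7
        · refine ⟨2, fun i hd => ?_⟩
          unfold sh at hd
          have h1 : (p : ℤ) ∣ 2 + 6 * ((i.2 : ℕ) : ℤ) := by
            have := dvd_sub hd (hpf.mul_right ((i.1 : ℕ) : ℤ))
            have e : (2 + ((step k : ℤ) * (i.1 : ℕ) + 6 * ((i.2 : ℕ) : ℤ))) -
                (step k : ℤ) * (i.1 : ℕ) = 2 + 6 * ((i.2 : ℕ) : ℤ) := by ring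
            rwa [e] at this
          subst h7'
          have hi2 : (i.2 : ℕ) = 0 ∨ (i.2 : ℕ) = 1 := by omega
          rcases hi2 with h | h <;> rw [h] at h1 <;> norm_num at h1
        · refine ⟨1, fun i hd => ?_⟩
          unfold sh at hd
          have h1 : (p : ℤ) ∣ 1 + 6 * ((i.2 : ℕ) : ℤ) := by
            have := dvd_sub hd (hpf.mul_right ((i.1 : ℕ) : ℤ))
            have e : (1 + ((step k : ℤ) * (i.1 : ℕ) + 6 * ((i.2 : ℕ) : ℤ))) -
                (step k : ℤ) * (i.1 : ℕ) = 1 + 6 * ((i.2 : ℕ) : ℤ) := by ring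
            rwa [e] at this
          have hi2 : (i.2 : ℕ) = 0 ∨ (i.2 : ℕ) = 1 := by omega
          rcases hi2 with h | h <;> rw [h] at h1
          · have h2 : (p : ℤ) ≤ 1 := Int.le_of_dvd one_pos (by simpa using h1)
            omega
          · have h2 : p ∣ 7 := by
              norm_num at h1
              exact_mod_cast h1
            exact h7' ((Nat.prime_dvd_prime_iff_eq hp (by norm_num)).1 h2)
      · -- more classes than forms
        push Not at hk
        have : NeZero p := ⟨hp.ne_zero⟩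
        have hcard : (Finset.univ.image (fun i : Fin k × Fin 2 => (-(sh k i) : ZMod p))).card <
            (Finset.univ : Finset (ZMod p)).card := by
          refine lt_of_le_of_lt Finset.card_image_le ?_
          rw [Finset.card_univ, Finset.card_univ, ZMod.card, Fintype.card_prod, Fintype.card_fin,
            Fintype.card_fin]
          omega
        obtain ⟨c, -, hc⟩ := Finset.exists_mem_notMem_of_card_lt_card hcard
        refine ⟨(c.val : ℤ), fun i hd => hc ?_⟩
        rw [Finset.mem_image]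
        refine ⟨i, Finset.mem_univ _, ?_⟩
        have := (ZMod.intCast_zmod_eq_zero_iff_dvd ((c.val : ℤ) + sh k i) p).2 hd
        push_cast at this
        rw [ZMod.natCast_zmod_val] at this
        linear_combination -this
    obtain ⟨c, hc⟩ := key
    obtain ⟨u, v, huv⟩ := hco
    refine ⟨u * (c - 1), fun i hd => hc i ?_⟩
    have e : c + sh k i = (1 * (1 + ((30 : ℕ) : ℤ) * (u * (c - 1))) + sh k i) + (p : ℤ) * (v * (c - 1)) := by
      have : u * 30 = 1 - v * p := by linarith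
      push_cast
      linear_combination (c - 1) * this * (-1)
    rw [e]
    exact dvd_add hd (Dvd.intro _ rfl)

/-- a positive lower bound for finitely many positive numbers -/
theorem low {ι : Type} [Fintype ι] (f : ι → ℝ) (hf : ∀ i, 0 < f i) : ∃ d : ℝ, 0 < d ∧ ∀ i, d ≤ f i := by
  have hS : 0 ≤ ∑ i, 1 / f i := Finset.sum_nonneg fun i _ => (one_div_pos.2 (hf i)).le
  refine ⟨1 / (∑ i, 1 / f i + 1), by positivity, fun i => ?_⟩
  rw [one_div_le (by positivity) (hf i)]
  have := Finset.single_le_sum (f := fun i => 1 / f i) (fun i _ => (one_div_pos.2 (hf i)).le)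
    (Finset.mem_univ i)
  linarith

/-- an upper bound for finitely many numbers -/
theorem upp {ι : Type} [Fintype ι] (f : ι → ℝ) : ∃ d : ℝ, 1 ≤ d ∧ ∀ i, f i ≤ d := by
  refine ⟨∑ i, |f i| + 1, by
    have : 0 ≤ ∑ i, |f i| := Finset.sum_nonneg fun i _ => abs_nonneg _
    linarith, fun i => ?_⟩
  have := Finset.single_le_sum (f := fun i => |f i|) (fun i _ => abs_nonneg _) (Finset.mem_univ i)
  linarith [le_abs_self (f i)]

/-- all short intervals -/
theorem intervals (k : ℕ) (θ ε : ℝ) (hθ : 1 / 2 < θ) (hθ1 : θ ≤ 1) (hε : 0 < ε) :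
    ∃ (R : ℕ) (δ : ℝ), 0 < δ ∧ ∃ x₀ : ℝ, ∀ x : ℝ, x₀ ≤ x → ∀ i < k, ∀ h s : ℕ, h ≤ 1 →
      x ^ (θ - ε) ≤ ({m : ℕ | x < m ∧ ((m + step k * k : ℕ) : ℝ) ≤ x + x ^ θ ∧
        Cluster k R (x ^ δ) m ∧
        ArithmeticFunction.cardFactors (m + step k * i + 6 * h) % 2 = s % 2}.ncard : ℝ) := by
  classical
  set θ' : ℝ := max ((1 / 2 + θ) / 2) (θ - ε / 2) with hθ'
  have h1 : 1 / 2 < θ' := lt_of_lt_of_le (by linarith) (le_max_left _ _)
  have h2 : θ' < θ := max_lt (by linarith) (by linarith)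
  have h3 : θ - ε ≤ θ' - ε / 2 := by
    have := le_max_right ((1 / 2 + θ) / 2) (θ - ε / 2)
    linarith
  choose R δ hδ x₀ H using fun o : Fin k × Fin 2 => Pool.Agent.W5h75.ST.every (Fin k × Fin 2)
    (fun _ => 1) (sh k) o (fun _ => one_pos) 30 (by norm_num) 1 (adm k) θ' (ε / 2) h1
    (h2.le.trans hθ1) (by linarith)
  obtain ⟨d, hd0, hd⟩ := low δ hδ
  obtain ⟨X, hX1, hX⟩ := upp x₀
  -- the interval is long enough
  have hev : ∀ᶠ x : ℝ in Filter.atTop, x ^ θ' + (step k * k : ℕ) ≤ x ^ θ := by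
    have e1 : Filter.Tendsto (fun x : ℝ => x ^ (θ - θ')) Filter.atTop Filter.atTop :=
      tendsto_rpow_atTop (by linarith)
    filter_upwards [e1.eventually_ge_atTop (1 + (step k * k : ℕ)), Filter.eventually_ge_atTop 1]
      with x hx hx1
    have e2 : x ^ θ = x ^ θ' * x ^ (θ - θ') := by
      rw [← Real.rpow_add (by linarith)]
      congr 1
      ring
    have e3 : 1 ≤ x ^ θ' := Real.one_le_rpow hx1 (by linarith)
    have e4 : (0 : ℝ) ≤ (step k * k : ℕ) := Nat.cast_nonneg _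
    rw [e2]
    nlinarith
  obtain ⟨X', hX'⟩ := Filter.eventually_atTop.1 hev
  refine ⟨∑ o, R o, d, hd0, max X X', ?_⟩
  intro x hx i hi h s hh
  have hxX : X ≤ x := (le_max_left _ _).trans hx
  have hx1 : 1 ≤ x := hX1.trans hxX
  have hlong := hX' x ((le_max_right _ _).trans hx)
  set o : Fin k × Fin 2 := (⟨i, hi⟩, ⟨h, by omega⟩) with ho
  have hH := H o x ((hX o).trans hxX) ((s : ℕ) : ZMod 2)
  refine (Real.rpow_le_rpow_of_exponent_le hx1 h3).trans (hH.trans (Nat.cast_le.2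
    (Set.ncard_le_ncard ?_ ?_)))
  · rintro m ⟨k1, k2, k3, k4, k5⟩
    have hm30 : m % 30 = 1 := by omega
    have hform : ∀ j : Fin k × Fin 2, (1 * (m : ℤ) + sh k j).natAbs =
        m + step k * (j.1 : ℕ) + 6 * (j.2 : ℕ) := by
      intro j
      have : (1 * (m : ℤ) + sh k j) = ((m + step k * (j.1 : ℕ) + 6 * (j.2 : ℕ) : ℕ) : ℤ) := by
        unfold sh
        push_cast
        ring
      rw [this, Int.natAbs_natCast]
    have hAP : ∀ j : Fin k × Fin 2, AlmostPrime (∑ o, R o) (x ^ d)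
        (m + step k * (j.1 : ℕ) + 6 * (j.2 : ℕ)) := by
      intro j
      obtain ⟨l1, l2, l3⟩ := k4 j
      rw [hform] at l2
      refine ⟨l2.trans (Finset.single_le_sum (f := R) (fun _ _ => Nat.zero_le _)
        (Finset.mem_univ o)), fun p hp hpd => ?_⟩
      refine lt_of_le_of_lt (Real.rpow_le_rpow_of_exponent_le hx1 (hd o)) (l3 p hp ?_)
      have e1 : (1 * (m : ℤ) + sh k j) = ((m + step k * (j.1 : ℕ) + 6 * (j.2 : ℕ) : ℕ) : ℤ) := by
        unfold sh
        push_cast
        ring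
      rw [e1]
      exact_mod_cast hpd
    refine ⟨k1, ?_, fun j hj => ?_, ?_⟩
    · push_cast at hlong ⊢
      linarith
    · refine ⟨by simpa using hAP (⟨j, hj⟩, 0), by simpa using hAP (⟨j, hj⟩, 1), fun y hy1 hy2 => ?_⟩
      refine between (m := m + step k * j) ?_ hy1 hy2
      have : step k * j % 30 = 0 := by
        unfold step
        rw [mul_assoc, Nat.mul_mod_right]
      omega
    · rw [hform] at k5
      exact (ZMod.natCast_eq_natCast_iff' _ _ 2).1 k5
  · apply (Set.finite_Iic ⌊x + x ^ θ⌋₊).subset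
    intro m hm
    refine Nat.le_floor (le_trans ?_ hm.2.1)
    push_cast
    have : (0 : ℝ) ≤ step k * k := by positivity
    linarith

/-- consecutive cubes -/
theorem cubes (k : ℕ) (ε : ℝ) (hε : 0 < ε) :
    ∃ (R : ℕ) (δ : ℝ), 0 < δ ∧ ∃ n₀ : ℕ, ∀ n : ℕ, n₀ ≤ n → ∀ i < k, ∀ h s : ℕ, h ≤ 1 →
      (n : ℝ) ^ (2 - ε) ≤ ({m : ℕ | n ^ 3 < m ∧ m + step k * k < (n + 1) ^ 3 ∧
        Cluster k R ((n : ℝ) ^ δ) m ∧
        ArithmeticFunction.cardFactors (m + step k * i + 6 * h) % 2 = s % 2}.ncard : ℝ) := by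
  obtain ⟨R, δ, hδ, x₀, H⟩ := intervals k (2 / 3) (ε / 3) (by norm_num) (by norm_num) (by linarith)
  refine ⟨R, 3 * δ, by linarith, max 1 ⌈x₀⌉₊, ?_⟩
  intro n hn i hi h s hh
  have hn1 : 1 ≤ n := (le_max_left _ _).trans hn
  have hnr : (1 : ℝ) ≤ n := by exact_mod_cast hn1
  have hn0 : (0 : ℝ) ≤ n := by linarith
  have hnx : x₀ ≤ n := (Nat.le_ceil _).trans (by exact_mod_cast (le_max_right _ _).trans hn)
  have hcube : (n : ℝ) ≤ (n : ℝ) ^ 3 := by nlinarith [mul_nonneg hn0 hn0]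
  have h1 := H ((n : ℝ) ^ 3) (hnx.trans hcube) i hi h s hh
  have e1 : ((n : ℝ) ^ 3) ^ (2 / 3 - ε / 3 : ℝ) = (n : ℝ) ^ (2 - ε) := by
    rw [← Real.rpow_natCast, ← Real.rpow_mul hn0]
    congr 1
    push_cast
    ring
  have e2 : ((n : ℝ) ^ 3) ^ (2 / 3 : ℝ) = (n : ℝ) ^ 2 := by
    rw [← Real.rpow_natCast, ← Real.rpow_mul hn0, ← Real.rpow_natCast]
    congr 1
    push_cast
    ring
  have e3 : ((n : ℝ) ^ 3) ^ δ = (n : ℝ) ^ (3 * δ) := by
    rw [← Real.rpow_natCast, ← Real.rpow_mul hn0]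
    congr 1
  rw [e1, e2, e3] at h1
  refine h1.trans (Nat.cast_le.2 (Set.ncard_le_ncard ?_ ?_))
  · rintro m ⟨k1, k2, k3⟩
    refine ⟨by exact_mod_cast k1, ?_, k3⟩
    have k4 : m + step k * k ≤ n ^ 3 + n ^ 2 := by exact_mod_cast k2
    nlinarith
  · apply (Set.finite_Iic ((n + 1) ^ 3)).subset
    intro m hm
    have := hm.2.1
    simp only [Set.mem_Iic]
    omega

/-- **Clusters of sexy almost primes with prescribed parity in all short intervals, in particular
between all large consecutive cubes.** -/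
theorem result (k : ℕ) :
    (∀ θ ε : ℝ, 1 / 2 < θ → θ ≤ 1 → 0 < ε → ∃ (R : ℕ) (δ : ℝ), 0 < δ ∧ ∃ x₀ : ℝ,
      ∀ x : ℝ, x₀ ≤ x → ∀ i < k, ∀ h s : ℕ, h ≤ 1 →
        x ^ (θ - ε) ≤ ({m : ℕ | x < m ∧ ((m + step k * k : ℕ) : ℝ) ≤ x + x ^ θ ∧
          Cluster k R (x ^ δ) m ∧
          ArithmeticFunction.cardFactors (m + step k * i + 6 * h) % 2 = s % 2}.ncard : ℝ)) ∧
    ∀ ε : ℝ, 0 < ε → ∃ (R : ℕ) (δ : ℝ), 0 < δ ∧ ∃ n₀ : ℕ, ∀ n : ℕ, n₀ ≤ n →
      ∀ i < k, ∀ h s : ℕ, h ≤ 1 →
        (n : ℝ) ^ (2 - ε) ≤ ({m : ℕ | n ^ 3 < m ∧ m + step k * k < (n + 1) ^ 3 ∧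
          Cluster k R ((n : ℝ) ^ δ) m ∧
          ArithmeticFunction.cardFactors (m + step k * i + 6 * h) % 2 = s % 2}.ncard : ℝ) :=
  ⟨fun θ ε h1 h2 h3 => intervals k θ ε h1 h2 h3, cubes k⟩

end Pool.Agent.Results.MP_5628fe_nt.ParityOfSexyClusters
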