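import Pool.Agent.H540.TE.Lin

/-!
# Sexy pairs of almost primes between consecutive cubes, the smaller one with two prime factors, along differences

The question concerns the pairs of consecutive primes `q`, `q + 6` with `n ^ 3 < q < q + 6 < (n + 1) ^ 3`. Here `q` has at
most two prime factors, both at least `n ^ (12 / 25)`, `q + 6` has at most `R` prime factors, all at least `n ^ c`,
and there is no prime strictly between `q` and `q + 6`. Such pairs are
found for all large `n`, and on a translate of the difference set of ANY set `A` of integers in `[1, n ^ 2]` with at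
least `n ^ (2 - c)` elements: let `x` be in `(n ^ 3, n ^ 3 + n ^ 2]` such that `x` and `x + 6` have no prime factor
below `n ^ κ`, and `x + 2` and `x + 4` have a prime factor up to `B`. Then `q = x + (a - b)` has these
properties for at least `n ^ (4 - δ)` pairs `b < a` of elements of `A`. The constants `c` and `R` depend only on
`B`, `κ` and `δ`. Base points `x` of this kind exist in every interval of length `n ^ ε` (with `5 | x + 2` and
`7 | x + 4`, where `κ` depends on `ε`). The condition that `x` and `x + 6` have no small prime factors is necessary: all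
elements of `A` may be multiples of such a prime.

For `A` the set of all integers of `[1, n ^ 2]` this is a classical sieve result. In general it is a
theorem of the type of Furstenberg and Sárközy with a power saving: the sets without such differences have at most
`n ^ (2 - c)` elements. (For the differences `p - 1` such a bound is a theorem of B. Green.)

Method: the small primes (up to a small power of `n`) are sieved by a combination of additive characters with
majorising properties: with `t_p (m) = (K + 1) 1_{p | m} - x_p (m)`, where `x_p` is the indicator function of the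
excluded classes and their negatives, `L = ∑_{d ≤ D} (1 - log d / log D) ∏_{p | d} t_p` and its analogues `L_p`
give `f = L ^ 2 - ∑_p x_p L_p ^ 2 ≤ 0` outside of the sifted set, and the Fourier coefficients of `f`
which are not small are nonnegative, so that their contribution is bounded from below by the main term, however sparse
`A` is. The larger prime divisors of `q` are treated by the linear sieve with the weights of Richert, with the
level `n ^ (48 / 25)`: the mean free parts of their indicator functions, multiplied by `L ^ 2` or `L_p ^ 2`, are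
dominated by functions with nonnegative coefficients, whose pair sums are bounded by the large sieve; the loss by the
sparsity of `A` is compensated by the gain from the size of these primes.
-/

set_option autoImplicit false

namespace Pool.Agent.Results.MP_5628fe_nt.SexyPairsTwoFactors

open Finset Filter Pool.Agent.H540.PS

/-- All prime factors of `n` are at least `y`. -/
def Rough (y : ℝ) (n : ℤ) : Prop := ∀ p : ℕ, p.Prime → (p : ℤ) ∣ n → y ≤ (p : ℝ)

/-- `n` is positive and has at most `R` prime factors, counted with multiplicity, all at least `y`. -/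
def AlmostPrime (R : ℕ) (y : ℝ) (n : ℤ) : Prop :=
  0 < n ∧ n.natAbs.primeFactorsList.length ≤ R ∧ Rough y n

/-- `q` has at most two prime factors, all at least `w`, `q + 6` has at most `R` prime factors, all at least `y`,
there is no prime strictly between them, and both are between the cubes of `n` and `n + 1`. -/
def SexyPair (R : ℕ) (y w : ℝ) (n q : ℤ) : Prop :=
  AlmostPrime 2 w q ∧ AlmostPrime R y (q + 6) ∧ (∀ p : ℕ, p.Prime → ¬ (q < p ∧ (p : ℤ) < q + 6)) ∧
    n ^ 3 < q ∧ q + 6 < (n + 1) ^ 3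

open Classical in
/-- The number of pairs `b < a` of elements of `A` such that `q = x + (a - b)` gives such a pair. -/
noncomputable def pairCount (R : ℕ) (y w : ℝ) (n x : ℤ) (A : Finset ℤ) : ℕ :=
  ((A ×ˢ A).filter (fun z : ℤ × ℤ => z.2 < z.1 ∧ SexyPair R y w n (x + (z.1 - z.2)))).card

/-- Some prime up to `B` divides `n`. -/
def SmallDivisor (B : ℕ) (n : ℤ) : Prop := ∃ p : ℕ, p.Prime ∧ p ≤ B ∧ (p : ℤ) ∣ n

theorem ap_of (R : ℕ) (y : ℝ) (n : ℤ) (hn : 0 < n) (h : AP R y n.natAbs) : AlmostPrime R y n :=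
  ⟨hn, h.2.1, fun p hp hd => h.2.2 p hp (Int.natCast_dvd.1 hd)⟩

theorem rr_self (X : ℤ → Prop) (p : ℕ) : (RR X p).card ≤ p := by
  refine (card_le_card (t := range p) ?_).trans (by rw [card_range])
  intro r hr
  rw [mem_RR] at hr
  exact mem_range.2 hr.1

/-- base points -/
theorem points (ε : ℝ) (hε : 0 < ε) : ∃ (κ : ℝ) (n₀ : ℕ), 0 < κ ∧ ∀ n : ℕ, n₀ ≤ n → ∀ M : ℤ,
    ∃ x : ℤ, M < x ∧ (x : ℝ) ≤ M + (n : ℝ) ^ ε ∧ Rough ((n : ℝ) ^ κ) x ∧ Rough ((n : ℝ) ^ κ) (x + 6) ∧
      SmallDivisor 7 (x + 2) ∧ SmallDivisor 7 (x + 4) := by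
  obtain ⟨κ, n0, hκ, H⟩ := base_eps 7 ε hε
  obtain ⟨n1, hn1⟩ := eventually_atTop.1 ((tpow hκ).eventually_ge_atTop 8)
  refine ⟨κ, max n0 n1, hκ, fun n hn M => ?_⟩
  have h8 := hn1 n ((le_max_right _ _).trans hn)
  have hsmall : ∀ p q : ℕ, p.Prime → 0 < q → (p : ℤ) ∣ (q : ℤ) → p ≤ q := by
    intro p q _ h0 hd
    exact Nat.le_of_dvd h0 (Int.natCast_dvd_natCast.1 hd)
  obtain ⟨t, h1, h2, h3⟩ := H n ((le_max_left _ _).trans hn) (fun p m => ((p : ℤ) ∣ m ∨ (p : ℤ) ∣ m + 6) ∨
      ((p = 5 ∧ ¬ (5 : ℤ) ∣ m + 2) ∨ (p = 7 ∧ ¬ (7 : ℤ) ∣ m + 4))) M (by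
    intro p hp
    refine ⟨?_, ?_, ?_⟩
    · intro m m' h
      have hs : ∀ w : ℤ, (p : ℤ) ∣ (m + w) - (m' + w) := by
        intro w
        rw [show m + w - (m' + w) = m - m' by ring]
        exact h
      refine or_congr (or_congr (Int.dvd_iff_dvd_of_dvd_sub h) (Int.dvd_iff_dvd_of_dvd_sub (hs 6))) (or_congr ?_ ?_)
      · refine and_congr_right ?_
        intro h5
        have := hs 2
        rw [h5] at this
        exact not_congr (Int.dvd_iff_dvd_of_dvd_sub (by exact_mod_cast this))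
      · refine and_congr_right ?_
        intro h5
        have := hs 4
        rw [h5] at this
        exact not_congr (Int.dvd_iff_dvd_of_dvd_sub (by exact_mod_cast this))
    · by_cases h57 : p = 5 ∨ p = 7
      · refine ⟨3, ?_⟩
        rcases h57 with h | h
        · rw [h]
          norm_num
        · rw [h]
          norm_num
      · push Not at h57
        refine ⟨1, ?_⟩
        rintro ((h | h) | (h | h))
        · have := hsmall p 1 hp one_pos (by exact_mod_cast h)
          have := hp.two_le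
          omega
        · have h7 := (Nat.prime_dvd_prime_iff_eq hp (show Nat.Prime 7 by norm_num)).1
            (Int.natCast_dvd_natCast.1 (by exact_mod_cast h))
          exact h57.2 h7
        · exact h57.1 h.1
        · exact h57.2 h.1
    · by_cases h57 : p = 5 ∨ p = 7
      · refine (rr_self _ p).trans ?_
        omega
      · push Not at h57
        have hone : ¬ ((p : ℤ) ∣ 1) := by
          intro hd
          have := hsmall p 1 hp one_pos (by exact_mod_cast hd)
          have := hp.two_le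
          omega
        have e1 : (RR (fun m => (p : ℤ) ∣ m) p).card ≤ 1 := by
          have := RR_lin 1 0 p hp (by
            rintro ⟨h, _⟩
            exact hone h)
          simpa using this
        have e2 : (RR (fun m => (p : ℤ) ∣ m + 6) p).card ≤ 1 := by
          have := RR_lin 1 6 p hp (by
            rintro ⟨h, _⟩
            exact hone h)
          simpa using this
        have e3 := RR_or _ _ p 1 1 e1 e2
        refine le_trans (card_le_card ?_) (e3.trans (by norm_num))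
        intro r hr
        rw [mem_RR] at hr ⊢
        refine ⟨hr.1, ?_⟩
        rcases hr.2 with h | (h | h)
        · exact h
        · exact absurd h.1 h57.1
        · exact absurd h.1 h57.2)
  refine ⟨t, h1, h2, fun p hp hd => h3 p hp (Or.inl (Or.inl hd)), fun p hp hd => h3 p hp (Or.inl (Or.inr hd)), ?_, ?_⟩
  · refine ⟨5, by norm_num, by norm_num, ?_⟩
    by_contra hcon
    have := h3 5 (by norm_num) (Or.inr (Or.inl ⟨rfl, by exact_mod_cast hcon⟩))
    push_cast at this
    linarith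
  · refine ⟨7, by norm_num, by norm_num, ?_⟩
    by_contra hcon
    have := h3 7 (by norm_num) (Or.inr (Or.inr ⟨rfl, by exact_mod_cast hcon⟩))
    push_cast at this
    linarith

/-- **Sexy pairs of almost primes between consecutive cubes, the smaller one with two prime factors, along
differences.** -/
theorem result :
    (∀ ε : ℝ, 0 < ε → ∃ (κ : ℝ) (n₀ : ℕ), 0 < κ ∧ ∀ n : ℕ, n₀ ≤ n → ∀ M : ℤ, ∃ x : ℤ,
      M < x ∧ (x : ℝ) ≤ M + (n : ℝ) ^ ε ∧ Rough ((n : ℝ) ^ κ) x ∧ Rough ((n : ℝ) ^ κ) (x + 6) ∧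
        SmallDivisor 7 (x + 2) ∧ SmallDivisor 7 (x + 4)) ∧
    ∀ (B : ℕ) (κ δ : ℝ), 0 < κ → 0 < δ → ∃ (c : ℝ) (R n₀ : ℕ), 0 < c ∧ ∀ n : ℕ, n₀ ≤ n →
      ∀ (x : ℤ) (A : Finset ℤ), (n : ℤ) ^ 3 < x → x ≤ (n : ℤ) ^ 3 + (n : ℤ) ^ 2 →
        Rough ((n : ℝ) ^ κ) x → Rough ((n : ℝ) ^ κ) (x + 6) → SmallDivisor B (x + 2) → SmallDivisor B (x + 4) →
        (∀ a ∈ A, 1 ≤ a ∧ a ≤ (n : ℤ) ^ 2) → (n : ℝ) ^ (2 - c) ≤ A.card →
        (n : ℝ) ^ (4 - δ) ≤ pairCount R ((n : ℝ) ^ c) ((n : ℝ) ^ (12 / 25 : ℝ)) n x A := by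
  classical
  refine ⟨points, ?_⟩
  intro B κ δ hκ hδ
  obtain ⟨c, R, N0, hc0, hcδ, H⟩ := linT 1 2 (17 / 10) 4 (κ / 2) (δ / 2) (by norm_num)
    (by positivity) (by linarith) (by linarith) (by norm_num)
  obtain ⟨N1, HN1⟩ := eventually_atTop.1 (((tpow (show (0 : ℝ) < 1 / 10 by norm_num)).eventually_ge_atTop 3).and
    (((tpow hc0).eventually_ge_atTop ((B : ℝ) * B + 3)).and (eventually_ge_atTop (B + 3))))
  refine ⟨c, R, max N0 N1, by linarith, ?_⟩
  intro n hn x A hx1 hx2 hr1 hr2 hd2 hd4 hA hAc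
  obtain ⟨hn3, hnB, hnB2⟩ := HN1 n ((le_max_right _ _).trans hn)
  have hn2 : 2 ≤ n := by omega
  have hn1 : 1 ≤ n := by omega
  have hNn : N0 ≤ n ^ 2 := ((le_max_left _ _).trans hn).trans (Nat.le_self_pow (by norm_num) n)
  have hnr1 : (1 : ℝ) ≤ n := by exact_mod_cast hn1
  have hnr0 : (0 : ℝ) < n := by linarith
  have hx0 : 0 < x := lt_of_le_of_lt (by positivity) hx1
  have hnz : (B : ℤ) + 3 ≤ n := by exact_mod_cast hnB2
  obtain ⟨p2, hp2, hp2B, hp2d⟩ := hd2
  obtain ⟨p4, hp4, hp4B, hp4d⟩ := hd4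
  -- the residue class
  obtain ⟨r', hr'⟩ := exists_cls A (p2 * p4) (Nat.mul_pos hp2.pos hp4.pos)
  obtain ⟨A', hA'⟩ : ∃ A', A' = A.filter (fun a => a % ((p2 * p4 : ℕ) : ℤ) = r') := ⟨_, rfl⟩
  rw [← hA'] at hr'
  have hAA : A' ⊆ A := by rw [hA']; exact filter_subset _ _
  have hA'c : (n : ℝ) ^ (2 * (1 - c)) ≤ A'.card := by
    have h1 : (A.card : ℝ) ≤ ((p2 * p4 : ℕ) : ℝ) * A'.card := by exact_mod_cast hr'
    have h2 : ((p2 * p4 : ℕ) : ℝ) ≤ (n : ℝ) ^ c := by
      push_cast
      have h3 : (p2 : ℝ) ≤ B := by exact_mod_cast hp2B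
      have h4 : (p4 : ℝ) ≤ B := by exact_mod_cast hp4B
      have h5 : (p2 : ℝ) * p4 ≤ B * B := mul_le_mul h3 h4 (by positivity) (by positivity)
      linarith
    have h3 : (n : ℝ) ^ (2 - c) ≤ (n : ℝ) ^ c * A'.card :=
      (hAc.trans h1).trans (mul_le_mul_of_nonneg_right h2 (Nat.cast_nonneg _))
    have h4 : (n : ℝ) ^ c * (n : ℝ) ^ (2 * (1 - c)) ≤ (n : ℝ) ^ c * A'.card := by
      refine le_trans (le_of_eq ?_) h3
      rw [← Real.rpow_add hnr0]
      congr 1
      ring
    exact le_of_mul_le_mul_left h4 (by positivity)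
  have hdiv : ∀ a ∈ A', ∀ b ∈ A', ((p2 * p4 : ℕ) : ℤ) ∣ a - b := by
    intro a ha b hb
    rw [hA', mem_filter] at ha hb
    exact Int.ModEq.dvd (hb.2.trans ha.2.symm)
  have key := H (n ^ 2) hNn 1 x (fun _ => 1) (fun _ => x + 6) A' one_ne_zero (by
    rw [npow_rpow, Int.cast_one, abs_one, one_mul, abs_of_nonneg (by exact_mod_cast hx0.le)]
    have e1 : (x : ℝ) ≤ (n : ℝ) ^ 3 + (n : ℝ) ^ 2 := by exact_mod_cast hx2
    have e2 : (n : ℝ) ^ 2 ≤ (n : ℝ) ^ 3 := pow_le_pow_right₀ hnr1 (by norm_num)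
    have e3 : (n : ℝ) ^ 3 ≤ (n : ℝ) ^ (33 / 10 : ℝ) := by
      rw [← Real.rpow_natCast]
      exact Real.rpow_le_rpow_of_exponent_le hnr1 (by norm_num)
    push_cast
    calc (x : ℝ) + (n : ℝ) ^ 2 ≤ 3 * (n : ℝ) ^ (33 / 10 : ℝ) := by linarith
      _ ≤ (n : ℝ) ^ (1 / 10 : ℝ) * (n : ℝ) ^ (33 / 10 : ℝ) :=
          mul_le_mul_of_nonneg_right hn3 (by positivity)
      _ = (n : ℝ) ^ ((2 : ℝ) * (17 / 10)) := by
          rw [← Real.rpow_add hnr0]
          norm_num) (by
    intro p hp hd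
    rw [npow_rpow]
    have e : ((2 : ℕ) : ℝ) * (κ / 2) = κ := by push_cast; ring
    rw [e]
    refine ⟨hr1 p hp hd, ?_⟩
    intro h7
    have h8 := Int.natCast_dvd.1 h7
    exact hp.one_lt.ne' (Nat.dvd_one.1 h8)) (by
    intro i
    rw [npow_rpow]
    have e : ((2 : ℕ) : ℝ) * 4 = ((8 : ℕ) : ℝ) := by norm_num
    rw [e, Real.rpow_natCast]
    constructor
    · rw [Int.cast_one, abs_one]
      exact one_le_pow₀ hnr1
    · have h6 : 0 ≤ x + 6 := by linarith
      rw [abs_of_nonneg (by exact_mod_cast h6)]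
      have hle : x + 6 ≤ (n : ℤ) ^ 8 := by
        have hn3z : (3 : ℤ) ≤ n := by linarith [(Nat.cast_nonneg B : (0 : ℤ) ≤ B)]
        have h9 : (n : ℤ) ^ 2 ≤ (n : ℤ) ^ 3 := pow_le_pow_right₀ (by linarith) (by norm_num)
        have h10 : (n : ℤ) ^ 8 = (n : ℤ) ^ 3 * (n : ℤ) ^ 5 := by ring
        have h11 : (3 : ℤ) ^ 5 ≤ (n : ℤ) ^ 5 := pow_le_pow_left₀ (by norm_num) hn3z 5
        have h12 : (3 : ℤ) ^ 3 ≤ (n : ℤ) ^ 3 := pow_le_pow_left₀ (by norm_num) hn3z 3
        nlinarith
      exact_mod_cast hle) (by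
    intro i p hp hd
    rw [npow_rpow]
    have e : ((2 : ℕ) : ℝ) * (κ / 2) = κ := by push_cast; ring
    rw [e]
    exact hr2 p hp hd) (by
    intro a ha
    obtain ⟨h1, h2⟩ := hA a (hAA ha)
    refine ⟨h1, ?_⟩
    push_cast
    exact h2) (by
    rw [npow_rpow]
    push_cast
    exact hA'c)
  rw [npow_rpow] at key
  have e : ((2 : ℕ) : ℝ) * (2 - δ / 2) = 4 - δ := by push_cast; ring
  rw [e] at key
  refine key.trans ?_
  unfold pairCount
  apply Nat.cast_le.2
  apply card_le_card
  rintro ⟨a, b⟩ hz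
  rw [mem_filter, mem_product] at hz ⊢
  obtain ⟨⟨ha, hb⟩, hlt, hmain, hall⟩ := hz
  simp only at ha hb hlt hmain hall ⊢
  have hdab := hdiv a ha b hb
  have ha := hAA ha
  have hb := hAA hb
  refine ⟨⟨ha, hb⟩, hlt, ?_⟩
  obtain ⟨g1, g2⟩ := hA a ha
  obtain ⟨g3, g4⟩ := hA b hb
  have hn2z : (2 : ℤ) ≤ n := by exact_mod_cast hn2
  have hn8 : (n : ℤ) ≤ (n : ℤ) ^ 2 := by nlinarith
  rw [npow_rpow, show 1 * (a - b) + x = x + (a - b) by ring] at hmain
  have e3 : ((2 : ℕ) : ℝ) * (6 / 25) = 12 / 25 := by norm_num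
  rw [e3] at hmain
  have k1 := hall 0
  rw [npow_rpow, show 1 * (a - b) + (x + 6) = x + (a - b) + 6 by ring] at k1
  have hq := ap_of _ _ _ (by linarith) hmain
  have hq6 := ap_of _ _ _ (by linarith) k1
  have hcc : (n : ℝ) ^ c ≤ (n : ℝ) ^ (((2 : ℕ) : ℝ) * c) := by
    apply Real.rpow_le_rpow_of_exponent_le hnr1
    push_cast
    linarith
  obtain ⟨q, hqe⟩ : ∃ q, q = x + (a - b) := ⟨_, rfl⟩
  rw [← hqe] at hq hq6 ⊢
  refine ⟨hq, ⟨hq6.1, hq6.2.1, fun p hp hd => hcc.trans (hq6.2.2 p hp hd)⟩, ?_, by linarith, ?_⟩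
  · rintro p hp ⟨h1, h2⟩
    have hqn : (n : ℤ) ^ 3 < q := by linarith
    have hn33 : (n : ℤ) ≤ (n : ℤ) ^ 3 := by nlinarith
    have hpn : (B : ℤ) + 3 ≤ p := by linarith
    have hpn' : B + 3 ≤ p := by exact_mod_cast hpn
    -- the pair is odd
    have hodd : ¬ (2 : ℤ) ∣ q + 6 := by
      intro h
      have h5 := hq6.2.2 2 Nat.prime_two (by exact_mod_cast h)
      have h6 : (3 : ℝ) ≤ (n : ℝ) ^ c := by
        have : (0 : ℝ) ≤ (B : ℝ) * B := by positivity
        linarith
      push_cast at h5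
      push_cast at hcc
      linarith
    have hpodd : ¬ (2 : ℤ) ∣ (p : ℤ) := by
      intro h
      have h5 := (Nat.prime_dvd_prime_iff_eq Nat.prime_two hp).1 (by exact_mod_cast h)
      omega
    have hcases : (p : ℤ) = q + 2 ∨ (p : ℤ) = q + 4 := by omega
    have hp2q : (p2 : ℤ) ∣ q + 2 := by
      have h5 : (p2 : ℤ) ∣ a - b := (Dvd.intro _ (by push_cast; rfl)).trans hdab
      have h6 : q + 2 = (x + 2) + (a - b) := by rw [hqe]; ring
      rw [h6]
      exact dvd_add hp2d h5
    have hp4q : (p4 : ℤ) ∣ q + 4 := by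
      have h5 : (p4 : ℤ) ∣ a - b := (Dvd.intro_left _ (by push_cast; rfl)).trans hdab
      have h6 : q + 4 = (x + 4) + (a - b) := by rw [hqe]; ring
      rw [h6]
      exact dvd_add hp4d h5
    rcases hcases with h | h
    · rw [← h] at hp2q
      have h5 := (Nat.prime_dvd_prime_iff_eq hp2 hp).1 (Int.natCast_dvd_natCast.1 hp2q)
      omega
    · rw [← h] at hp4q
      have h5 := (Nat.prime_dvd_prime_iff_eq hp4 hp).1 (Int.natCast_dvd_natCast.1 hp4q)
      omega
  · have : ((n : ℤ) + 1) ^ 3 = (n : ℤ) ^ 3 + 3 * (n : ℤ) ^ 2 + 3 * n + 1 := by ring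
    rw [this]
    have hn3z : (3 : ℤ) ≤ n := by linarith [(Nat.cast_nonneg B : (0 : ℤ) ≤ B)]
    nlinarith

end Pool.Agent.Results.MP_5628fe_nt.SexyPairsTwoFactors
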